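import Pool.Agent.Helper75.PY.Stmts

/-!
# Row MG3: matching an additive class with a square class, characteristic three
-/

set_option autoImplicit false

universe u

namespace Pool.Agent.Helper75.PY

theorem mg34_poly (K : Type u) [Field K] [Infinite K] (a c d : K) (hd : d ≠ 0) :
    ∃ m : K, m * ((d ^ 2 * m ^ 6 - a ^ 3 * c ^ 3) ^ 2 + a ^ 6) ≠ 0 := by
  by_contra hcon
  have hcon' : ∀ m : K, m * ((d ^ 2 * m ^ 6 - a ^ 3 * c ^ 3) ^ 2 + a ^ 6) = 0 :=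
    fun m => by_contra fun h => hcon ⟨m, h⟩
  have hP : (Polynomial.C (d ^ 4) * Polynomial.X ^ 13 -
      Polynomial.C (2 * d ^ 2 * a ^ 3 * c ^ 3) * Polynomial.X ^ 7 +
      Polynomial.C (a ^ 6 * c ^ 6 + a ^ 6) * Polynomial.X : Polynomial K) = 0 := by
    apply Polynomial.funext
    intro m
    rw [Polynomial.eval_zero, ← hcon' m]
    simp only [Polynomial.eval_add, Polynomial.eval_sub, Polynomial.eval_mul, Polynomial.eval_C,
      Polynomial.eval_pow, Polynomial.eval_X]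
    ring
  have hc := congrArg (fun p : Polynomial K => p.coeff 13) hP
  simp only [Polynomial.coeff_add, Polynomial.coeff_sub, Polynomial.coeff_C_mul,
    Polynomial.coeff_X_pow, Polynomial.coeff_X, Polynomial.coeff_zero] at hc
  norm_num at hc
  exact hd hc

theorem st_MG3 : ST_MG3.{u} := by
  intro K _ _ a c d h3 ha hd
  obtain ⟨m, hm⟩ := mg34_poly K a c d hd
  have hm0 : m ≠ 0 := left_ne_zero_of_mul hm
  have hq : (d ^ 2 * m ^ 6 - a ^ 3 * c ^ 3) ^ 2 + a ^ 6 ≠ 0 := right_ne_zero_of_mul hm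
  obtain ⟨e, he⟩ : ∃ e : K, e = d * m ^ 3 := ⟨_, rfl⟩
  have he0 : e ≠ 0 := by
    rw [he]
    exact mul_ne_zero hd (pow_ne_zero 3 hm0)
  obtain ⟨v, hv⟩ : ∃ v : K, v = e ^ 2 / a ^ 3 - c ^ 3 := ⟨_, rfl⟩
  have hT : e ^ 2 = a ^ 3 * (v + c ^ 3) := by
    rw [hv]
    field_simp
    ring
  have hv1 : v ^ 2 + 1 ≠ 0 := by
    intro h
    apply hq
    have h1 : d ^ 2 * m ^ 6 = a ^ 3 * (v + c ^ 3) := by
      rw [← hT, he]
      ring
    rw [h1]
    linear_combination a ^ 6 * h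
  obtain ⟨W, hW⟩ : ∃ W : K, W = 1 - c * (v + c) := ⟨_, rfl⟩
  have key : a ^ 3 * (v ^ 2 + 1) ^ 2 = e ^ 2 * (c + (v + c) ^ 3 - (v + c)) + a ^ 3 * W ^ 3 := by
    rw [hW]
    linear_combination (a ^ 3 * (v ^ 2 - c * v ^ 3 - c ^ 2 * v ^ 2 + (c * v + c ^ 2) -
      (c * v + c ^ 2) ^ 2)) * h3 - (c + (v + c) ^ 3 - (v + c)) * hT
  have h1 : e ^ 2 * (a * (a * (v ^ 2 + 1) / e) ^ 2) = a ^ 3 * (v ^ 2 + 1) ^ 2 := by
    field_simp
  have h2 : e ^ 2 * (e * (a * W / e) ^ 3) = a ^ 3 * W ^ 3 := by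
    field_simp
  have h4 : d * (m * (a * W / e)) ^ 3 = e * (a * W / e) ^ 3 := by
    have : ∀ t : K, d * (m * t) ^ 3 = d * m ^ 3 * t ^ 3 := fun t => by ring
    rw [this, ← he]
  refine ⟨a * (v ^ 2 + 1) / e, m * (a * W / e), v + c, ?_, ?_⟩
  · exact div_ne_zero (mul_ne_zero ha hv1) he0
  · apply mul_left_cancel₀ (pow_ne_zero 2 he0)
    rw [h1, h4, mul_add, h2, key]

end Pool.Agent.Helper75.PY
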